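import Pool.Agent.K1H41.SL.Asm
import Pool.Agent.K1H41.SL.T_PT
import Pool.Agent.K1H41.SL.T_LINE
import Pool.Agent.K1H41.SL.T_RAZ
import Pool.Agent.K1H41.SL.T_CHART
import Pool.Agent.K1H41.NF.T_NG
import Pool.Agent.K1H41.NF.T_VAR
import Pool.Agent.K1H41.NF.T_FAM
import Pool.Agent.K1H41.NF.T_TOP

/-!
# `n`-central polynomials which are semi-invariants of the affine group of the plane

Let `n ≥ 5` be a prime and `K` an infinite field whose characteristic is not `n`. If there is an
`n`-central polynomial for `M_n(K)`, in any number of variables, then there is one, `g(x, y)`, in two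
variables, with `g(a x + b y + s, c x + d y + t) = (a d - b c) ^ k g(x, y)` on `M_n(K)`, for all
scalars `a, b, c, d, s, t`.

The proof: first find an `n`-central polynomial `f` which is a semi-invariant of the triangular
substitutions (degenerations, as in Borel's fixed point theorem). The values of `f` at the points of
the orbit of `(X, Y)` under `SL_2(K)` depend on the first row of the matrix only, and form a binary
form in it. Put into this form a pair of central polynomials `(D_0, D_1)` in `x, y`, covariant under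
`SL_2(K)`; such pairs come from Razmyslov's construction, applied with invariant auxiliary elements,
since the values of the invariant polynomials `u = [x, y]`, `[[x, u], [y, u]]` generate the matrix
algebra at a suitable pair of matrices.
-/

set_option autoImplicit false

namespace Pool.Agent.Results.MP_5d2531_al.AffineInvariants

/-- Every value of `f` on `n × n` matrices over `K` is a scalar matrix. -/
def ScalarValued {K : Type*} [Field K] {σ : Type*} (n : ℕ) (f : FreeAlgebra K σ) : Prop :=
  ∀ X : σ → Matrix (Fin n) (Fin n) K, ∃ c : K, FreeAlgebra.lift K X f = Matrix.scalar (Fin n) c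

/-- `f` is central for `M_n(K)`: all values are scalar and `f` is not identically zero. -/
def IsCentral {K : Type*} [Field K] {σ : Type*} (n : ℕ) (f : FreeAlgebra K σ) : Prop :=
  ScalarValued n f ∧ ∃ X : σ → Matrix (Fin n) (Fin n) K, FreeAlgebra.lift K X f ≠ 0

/-- `f` is `ν`-central for `M_n(K)`: `ν` is the least positive integer with `f ^ ν` central. -/
def IsNuCentral {K : Type*} [Field K] {σ : Type*} (n ν : ℕ) (f : FreeAlgebra K σ) : Prop :=
  0 < ν ∧ IsCentral n (f ^ ν) ∧ ∀ μ : ℕ, 0 < μ → IsCentral n (f ^ μ) → ν ≤ μ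

/-- the value of the polynomial `g` in two variables at the pair `(X, Y)` -/
noncomputable def val {K : Type*} [Field K] {n : ℕ} (g : FreeAlgebra K (Fin 2))
    (X Y : Matrix (Fin n) (Fin n) K) : Matrix (Fin n) (Fin n) K := FreeAlgebra.lift K ![X, Y] g

/-- Let `n ≥ 5` be a prime, `K` an infinite field of characteristic different from `n`. If there is
an `n`-central polynomial `f` for `M_n(K)`, in any set `σ` of variables, then there are an
`n`-central polynomial `g` in two variables and `k > 0` such that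
`g(a X + b Y + s, c X + d Y + t) = (a d - b c) ^ k g(X, Y)` for all `n × n` matrices `X, Y` over `K`
and all `a, b, c, d, s, t ∈ K`. -/
theorem result {K : Type} [Field K] [Infinite K] {σ : Type*} (n : ℕ) (hn : n.Prime)
    (h5 : 5 ≤ n) (hnK : (n : K) ≠ 0) (f : FreeAlgebra K σ) (hf : IsNuCentral n n f) :
    ∃ g : FreeAlgebra K (Fin 2), IsNuCentral n n g ∧ ∃ k : ℕ, 0 < k ∧
      ∀ (a b c d s t : K) (X Y : Matrix (Fin n) (Fin n) K),
        val g (a • X + b • Y + Matrix.scalar (Fin n) s) (c • X + d • Y + Matrix.scalar (Fin n) t) =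
          (a * d - b * c) ^ k • val g X Y := by
  obtain ⟨f1, h1, h2, h3, h4, h6⟩ := Pool.Agent.K1H41.NF.normal
    Pool.Agent.K1H41.NF.t_VAR Pool.Agent.K1H41.NF.t_FAM Pool.Agent.K1H41.NF.t_UNI
    Pool.Agent.K1H41.NF.t_TOP hn.pos f (Pool.Agent.K1H41.NF.t_NG K σ n hn hnK f hf)
  have hn3 : Nat.Coprime 3 n :=
    (Nat.coprime_primes Nat.prime_three hn).2 (by omega)
  obtain ⟨f2, h7, h8⟩ := Pool.Agent.K1H41.SL.exists_sl Pool.Agent.K1H41.SL.t_PT
    Pool.Agent.K1H41.SL.t_LINE Pool.Agent.K1H41.SL.t_RAZ Pool.Agent.K1H41.SL.t_CHART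
    h5 hn3 f1 h1 h2 h3 h4 h6
  obtain ⟨g, h9, h10, h11⟩ := Pool.Agent.K1H41.SL.exists_torus
    Pool.Agent.K1H41.NF.t_FAM Pool.Agent.K1H41.NF.t_UNI Pool.Agent.K1H41.NF.t_TOP f2 h7 h8
  obtain ⟨k, hk, h12⟩ := Pool.Agent.K1H41.SL.full_inv hnK g h9 h10 h11
  refine ⟨g, Pool.Agent.K1H41.NF.t_GN K (Fin 2) n hn hnK g h9, k, hk, ?_⟩
  intro a b c d s t X Y
  have h := h12 a b c d s t X Y
  unfold Pool.Agent.K1H41.NF.ev at h
  have e : ∀ r : K, (Matrix.scalar (Fin n) r : Matrix (Fin n) (Fin n) K) = r • 1 := by
    intro r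
    rw [Matrix.scalar_apply, Matrix.smul_one_eq_diagonal]
  rw [e, e]
  exact h

end Pool.Agent.Results.MP_5d2531_al.AffineInvariants
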