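import Pool.Agent.K1H41.NF.Bor
import Pool.Agent.K1H41.NF.T_NG
import Pool.Agent.K1H41.NF.T_TOP

/-!
# A normal form of `n`-central polynomials of given degree

Let `n` be a prime and `K` an infinite field whose characteristic is not `n`. If there is an
`n`-central polynomial for `M_n(K)` of degree at most `D`, in any number of variables, then there is
one of degree at most `D` in the `n ^ 2 - 1` variables `x_0, x_1, …` which is homogeneous in each
variable and invariant under all substitutions `x_k ↦ x_k + c + Σ_{j < k} c_j x_j`.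

The proof: substitute linear combinations of `n ^ 2 - 1` variables and `1`; then pass to leading
coefficients with respect to one parameter groups of substitutions, so chosen that the earlier
invariances are kept.
-/

set_option autoImplicit false

namespace Pool.Agent.Results.MP_5d2531_al.BorelInvariants

/-- Every value of `f` on `n × n` matrices over `K` is a scalar matrix. -/
def ScalarValued {K : Type*} [Field K] {σ : Type*} (n : ℕ) (f : FreeAlgebra K σ) : Prop :=
  ∀ X : σ → Matrix (Fin n) (Fin n) K, ∃ c : K, FreeAlgebra.lift K X f = Matrix.scalar (Fin n) c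

/-- `f` is central for `M_n(K)`: all values are scalar and `f` is not identically zero. -/
def IsCentral {K : Type*} [Field K] {σ : Type*} (n : ℕ) (f : FreeAlgebra K σ) : Prop :=
  ScalarValued n f ∧ ∃ X : σ → Matrix (Fin n) (Fin n) K, FreeAlgebra.lift K X f ≠ 0

/-- `f` is `ν`-central for `M_n(K)`: `ν` is the least positive integer with `f ^ ν` central. -/
def IsNuCentral {K : Type*} [Field K] {σ : Type*} (n ν : ℕ) (f : FreeAlgebra K σ) : Prop :=
  0 < ν ∧ IsCentral n (f ^ ν) ∧ ∀ μ : ℕ, 0 < μ → IsCentral n (f ^ μ) → ν ≤ μ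

/-- `f` has degree at most `D`: it is a linear combination of words of length at most `D`. -/
def DegreeLE {K : Type*} [Field K] {σ : Type*} (D : ℕ) (f : FreeAlgebra K σ) : Prop :=
  f ∈ Submodule.span K {w : FreeAlgebra K σ | ∃ l : List σ, l.length ≤ D ∧
    w = (l.map (FreeAlgebra.ι K)).prod}

/-- Let `n` be a prime, `K` an infinite field of characteristic different from `n`. If there is an
`n`-central polynomial `f` for `M_n(K)` of degree at most `D`, in any set `σ` of variables, then
there is an `n`-central polynomial `g` of degree at most `D` in the `n ^ 2 - 1` variables `x_k`,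
`0 ≤ k < n ^ 2 - 1`, such that
* `g` is homogeneous in each variable (as a function on `M_n(K)`),
* `g(Y) = g(X)` whenever each `Y_k - X_k` is a linear combination of `1` and of the `X_j`, `j < k`. -/
theorem result {K : Type*} [Field K] [Infinite K] {σ : Type*} (n : ℕ) (hn : n.Prime)
    (hnK : (n : K) ≠ 0) (D : ℕ) (f : FreeAlgebra K σ) (hf : IsNuCentral n n f)
    (hD : DegreeLE D f) :
    ∃ g : FreeAlgebra K (Fin (n ^ 2 - 1)), IsNuCentral n n g ∧ DegreeLE D g ∧
      (∀ k : Fin (n ^ 2 - 1), ∃ e : ℕ,
        ∀ (X : Fin (n ^ 2 - 1) → Matrix (Fin n) (Fin n) K) (s : K),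
          FreeAlgebra.lift K (Function.update X k (s • X k)) g =
            s ^ e • FreeAlgebra.lift K X g) ∧
      ∀ X Y : Fin (n ^ 2 - 1) → Matrix (Fin n) (Fin n) K,
        (∀ k, Y k - X k ∈ Submodule.span K
          ({1} ∪ {A : Matrix (Fin n) (Fin n) K | ∃ j < k, A = X j})) →
        FreeAlgebra.lift K Y g = FreeAlgebra.lift K X g := by
  obtain ⟨g, hg, hgD, hi, hh⟩ := Pool.Agent.K1H41.NF.Bor.normal_deg
    Pool.Agent.K1H41.NF.t_FAM Pool.Agent.K1H41.NF.t_UNI
    Pool.Agent.K1H41.NF.t_TOP hn.pos D f (Pool.Agent.K1H41.NF.t_NG K σ n hn hnK f hf) hD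
  refine ⟨g, Pool.Agent.K1H41.NF.t_GN K _ n hn hnK g hg, hgD, hh, ?_⟩
  intro X Y hXY
  refine hi X Y ⟨fun j hj => absurd hj (Nat.not_lt_zero _), fun k _ => ?_⟩
  refine Submodule.span_mono ?_ (hXY k)
  rintro A (hA | ⟨j, hj, rfl⟩)
  · exact ⟨none, trivial, hA⟩
  · exact ⟨some j, hj, rfl⟩

end Pool.Agent.Results.MP_5d2531_al.BorelInvariants
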