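import Pool.Agent.K1H41.NF.Low
import Pool.Agent.K1H41.NF.T_NG
import Pool.Agent.K1H41.NF.T_TOP

/-!
# `n`-central polynomials of minimal degree

Let `n` be a prime and `K` an infinite field whose characteristic is not `n`. If an `n`-central
polynomial `f` for `M_n(K)` has the smallest possible degree `D` then, as a function on `M_n(K)`, `f`
is homogeneous of degree `D` and does not change if scalar matrices are added to the variables.

The proof: the lowest component of an `n`-central polynomial which does not vanish on `M_n(K)`, and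
the leading coefficient of `f(X + t c)` as a polynomial in `t`, are again `n`-central.
-/

set_option autoImplicit false

namespace Pool.Agent.Results.MP_5d2531_al.MinimalDegree

/-- Every value of `f` on `n × n` matrices over `K` is a scalar matrix. -/
def ScalarValued {K : Type*} [Field K] {σ : Type*} (n : ℕ) (f : FreeAlgebra K σ) : Prop :=
  ∀ X : σ → Matrix (Fin n) (Fin n) K, ∃ c : K, FreeAlgebra.lift K X f = Matrix.scalar (Fin n) c

/-- `f` is central for `M_n(K)`: all values are scalar and `f` is not identically zero. -/
def IsCentral {K : Type*} [Field K] {σ : Type*} (n : ℕ) (f : FreeAlgebra K σ) : Prop :=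
  ScalarValued n f ∧ ∃ X : σ → Matrix (Fin n) (Fin n) K, FreeAlgebra.lift K X f ≠ 0

/-- `f` is `ν`-central for `M_n(K)`: `ν` is the least positive integer with `f ^ ν` central. -/
def IsNuCentral {K : Type*} [Field K] {σ : Type*} (n ν : ℕ) (f : FreeAlgebra K σ) : Prop :=
  0 < ν ∧ IsCentral n (f ^ ν) ∧ ∀ μ : ℕ, 0 < μ → IsCentral n (f ^ μ) → ν ≤ μ

/-- `f` has degree at most `D`: it is a linear combination of words of length at most `D`. -/
def DegreeLE {K : Type*} [Field K] {σ : Type*} (D : ℕ) (f : FreeAlgebra K σ) : Prop :=
  f ∈ Submodule.span K {w : FreeAlgebra K σ | ∃ l : List σ, l.length ≤ D ∧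
    w = (l.map (FreeAlgebra.ι K)).prod}

/-- Let `n` be a prime, `K` an infinite field of characteristic different from `n`, `f` an
`n`-central polynomial for `M_n(K)` of degree at most `D`, and suppose that there is no `n`-central
polynomial in the same variables of degree less than `D`. Then, for all matrices `X_i` and scalars
`s`, `a_i`, `f(s X) = s ^ D f(X)` and `f(X + a) = f(X)`. -/
theorem result {K : Type*} [Field K] [Infinite K] {σ : Type*} (n : ℕ) (hn : n.Prime)
    (hnK : (n : K) ≠ 0) (D : ℕ) (f : FreeAlgebra K σ) (hf : IsNuCentral n n f)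
    (hD : DegreeLE D f)
    (hmin : ∀ g : FreeAlgebra K σ, IsNuCentral n n g → ∀ E : ℕ, DegreeLE E g → D ≤ E) :
    (∀ (X : σ → Matrix (Fin n) (Fin n) K) (s : K),
      FreeAlgebra.lift K (fun i => s • X i) f = s ^ D • FreeAlgebra.lift K X f) ∧
    ∀ (X : σ → Matrix (Fin n) (Fin n) K) (a : σ → K),
      FreeAlgebra.lift K (fun i => X i + Matrix.scalar (Fin n) (a i)) f =
        FreeAlgebra.lift K X f :=
  Pool.Agent.K1H41.NF.Low.minimal D f (Pool.Agent.K1H41.NF.t_NG K σ n hn hnK f hf) hD
    fun g E hg hE => hmin g (Pool.Agent.K1H41.NF.t_GN K σ n hn hnK g hg) E hE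

end Pool.Agent.Results.MP_5d2531_al.MinimalDegree
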