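import Pool.Agent.K1H41.NF.Com
import Pool.Agent.K1H41.NF.T_NG
import Pool.Agent.K1H41.NF.T_VAR
import Pool.Agent.K1H41.NF.T_FAM
import Pool.Agent.K1H41.NF.T_TOP
import Pool.Agent.K1H41.NF.T_CYC
import Pool.Agent.K1H41.NF.T_LIN

/-!
# A normal form of `n`-central polynomials

Let `n` be a prime and `K` an infinite field whose characteristic is not `n`. If there is an
`n`-central polynomial for `M_n(K)`, in any number of variables, then there is one, `g(x, y)`, in two
variables, which is homogeneous in `x` and in `y`, does not change if a scalar matrix is added to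
`X`, and whose value at `(X, Y)` depends only on `X` and on the commutator `[X, Y]`.
-/

set_option autoImplicit false

namespace Pool.Agent.Results.MP_5d2531_al.TriangularInvariants

/-- Every value of `f` on `n × n` matrices over `K` is a scalar matrix. -/
def ScalarValued {K : Type*} [Field K] {σ : Type*} (n : ℕ) (f : FreeAlgebra K σ) : Prop :=
  ∀ X : σ → Matrix (Fin n) (Fin n) K, ∃ c : K, FreeAlgebra.lift K X f = Matrix.scalar (Fin n) c

/-- `f` is central for `M_n(K)`: all values are scalar and `f` is not identically zero. -/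
def IsCentral {K : Type*} [Field K] {σ : Type*} (n : ℕ) (f : FreeAlgebra K σ) : Prop :=
  ScalarValued n f ∧ ∃ X : σ → Matrix (Fin n) (Fin n) K, FreeAlgebra.lift K X f ≠ 0

/-- `f` is `ν`-central for `M_n(K)`: `ν` is the least positive integer with `f ^ ν` central. -/
def IsNuCentral {K : Type*} [Field K] {σ : Type*} (n ν : ℕ) (f : FreeAlgebra K σ) : Prop :=
  0 < ν ∧ IsCentral n (f ^ ν) ∧ ∀ μ : ℕ, 0 < μ → IsCentral n (f ^ μ) → ν ≤ μ

/-- the value of the polynomial `g` in two variables at the pair `(X, Y)` -/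
noncomputable def val {K : Type*} [Field K] {n : ℕ} (g : FreeAlgebra K (Fin 2))
    (X Y : Matrix (Fin n) (Fin n) K) : Matrix (Fin n) (Fin n) K := FreeAlgebra.lift K ![X, Y] g

/-- Let `n` be a prime, `K` an infinite field of characteristic different from `n`. If there is an
`n`-central polynomial `f` for `M_n(K)`, in any set `σ` of variables, then there is an `n`-central
polynomial `g` in two variables such that
* `g(s X, t Y) = s ^ a t ^ b g(X, Y)` for some `a`, `b`,
* `g(X + s, Y) = g(X, Y)`,
* `g(X, Y) = g(X, Y')` whenever `X Y - Y X = X Y' - Y' X`; in particular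
  `g(X, Y + h(X)) = g(X, Y)` for all polynomials `h`. -/
theorem result {K : Type*} [Field K] [Infinite K] {σ : Type*} (n : ℕ) (hn : n.Prime)
    (hnK : (n : K) ≠ 0) (f : FreeAlgebra K σ) (hf : IsNuCentral n n f) :
    ∃ g : FreeAlgebra K (Fin 2), IsNuCentral n n g ∧
      (∃ a b : ℕ, ∀ (s t : K) (X Y : Matrix (Fin n) (Fin n) K),
        val g (s • X) (t • Y) = (s ^ a * t ^ b) • val g X Y) ∧
      (∀ (s : K) (X Y : Matrix (Fin n) (Fin n) K),
        val g (X + Matrix.scalar (Fin n) s) Y = val g X Y) ∧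
      (∀ X Y Y' : Matrix (Fin n) (Fin n) K, X * Y - Y * X = X * Y' - Y' * X →
        val g X Y = val g X Y') := by
  obtain ⟨g, hg, hi, ht, ⟨a, ha⟩, b, hb⟩ := Pool.Agent.K1H41.NF.normal
    Pool.Agent.K1H41.NF.t_VAR Pool.Agent.K1H41.NF.t_FAM Pool.Agent.K1H41.NF.t_UNI
    Pool.Agent.K1H41.NF.t_TOP hn.pos f (Pool.Agent.K1H41.NF.t_NG K σ n hn hnK f hf)
  refine ⟨g, Pool.Agent.K1H41.NF.t_GN K (Fin 2) n hn hnK g hg, ⟨a, b, ?_⟩, ?_, ?_⟩
  · intro s t X Y
    have h1 := ha s X (t • Y)
    have h2 := hb t X Y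
    unfold val
    unfold Pool.Agent.K1H41.NF.ev at h1 h2
    rw [h1, h2, smul_smul]
  · intro s X Y
    have h1 := ht s X Y
    unfold val
    unfold Pool.Agent.K1H41.NF.ev at h1
    rw [← h1]
    congr 2
    rw [Matrix.scalar_apply, Matrix.smul_one_eq_diagonal]
  · intro X Y Y' h
    have h1 := Pool.Agent.K1H41.NF.com_inv Pool.Agent.K1H41.NF.t_CYC Pool.Agent.K1H41.NF.t_LIN g hi
      X Y (Y' - Y) (by
        rw [sub_mul, mul_sub]
        rw [sub_eq_sub_iff_add_eq_add] at h ⊢
        rw [add_comm (Y' * X), h, add_comm])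
    rw [add_sub_cancel] at h1
    unfold val
    unfold Pool.Agent.K1H41.NF.ev at h1
    exact h1.symm

end Pool.Agent.Results.MP_5d2531_al.TriangularInvariants
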